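import Pool.Agent.R555.EMD3

/-!
# The earth mover's distance to a property under a random relabeling of the cube

Let `A` be the set of the `m = 2 ^ (n - k)` points of the cube whose first `k` coordinates are
zero. The distribution `X` gives mass `(1 - η) / m` to every point of `A` and spreads the mass `η`
uniformly on the complement of `A`, and `D` is the property that all the probabilities are
multiples of `1 / m`. The property is closed under mapping.

* If `η` is a small power of `n`, then `X` is `η k / (4 n)`-far from `D`: either the distribution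
  `Y` in `D` has so few atoms outside of `A` that almost all the dust is not within distance `k` of
  them, then the dust has to be moved by `k / 2` coordinates on average; or the atoms of `Y`
  outside of `A` have much more mass than `η`.
* For most of the bijections `π` the distribution `π (X)` is `3 η / n`-close to the uniform
  distribution on `π (A)`: the set `π (A)` is a random set, so the dust can be moved to `π (A)` by
  moving it to a random neighbour, where the resulting imbalance, which has mass `O (η / √n)`, is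
  repaired inside of subcubes of dimension `n ^ (1/4)`.
-/

set_option autoImplicit false

namespace Pool.Agent.Results.MP_3e89d2_lc.RandomRelabeling

open Finset Filter Topology Pool.Agent.R555.EMD

/-- `P` is a probability distribution on the cube. -/
def IsDist {n : ℕ} (P : Cube n → ℝ) : Prop := (∀ x, 0 ≤ P x) ∧ ∑ x, P x = 1

/-- The distribution of `f x`, where `x` is a sample of `P`. -/
noncomputable def push {n : ℕ} (f : Cube n → Cube n) (P : Cube n → ℝ) (z : Cube n) : ℝ :=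
  ∑ x with f x = z, P x

/-- The earth mover's distance of two distributions: the minimum of `∑ w x y * Δ x y` over all the
couplings `w` of `P` and `Q`, where `Δ` is the relative Hamming distance. -/
noncomputable def emd {n : ℕ} (P Q : Cube n → ℝ) : ℝ :=
  sInf {c | ∃ w, IsCoupling P Q w ∧ c = ∑ x, ∑ y, w x y * Δ x y}

/-- A property is a set of distributions. -/
def IsProperty {n : ℕ} (D : Set (Cube n → ℝ)) : Prop := ∀ Y ∈ D, IsDist Y

/-- The property is closed under mapping. -/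
def ClosedUnderMapping {n : ℕ} (D : Set (Cube n → ℝ)) : Prop :=
  ∀ Y ∈ D, ∀ f : Cube n → Cube n, push f Y ∈ D

/-- `X` is `ε`-far from `D`. -/
def Far {n : ℕ} (ε : ℝ) (X : Cube n → ℝ) (D : Set (Cube n → ℝ)) : Prop := ∀ Y ∈ D, ε ≤ emd X Y

open Classical in
/-- The statement of Q1: there are a constant `c > 0` and a null sequence `δ` such that for all
`n`, all properties `D` closed under mapping, all `ε > 0` and all distributions `X` which are
`ε`-far from `D` at least `(1 - δ n) (2 ^ n)!` of the `(2 ^ n)!` bijections `π` are such that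
`π (X)` is `c ε`-far from `D`. -/
def Conjecture : Prop :=
  ∃ c : ℝ, 0 < c ∧ ∃ δ : ℕ → ℝ, Tendsto δ atTop (𝓝 0) ∧
    ∀ n : ℕ, 1 ≤ n → ∀ D : Set (Cube n → ℝ), IsProperty D → ClosedUnderMapping D →
      ∀ ε : ℝ, 0 < ε → ∀ X : Cube n → ℝ, IsDist X → Far ε X D →
        (1 - δ n) * ((2 ^ n).factorial : ℝ) ≤ #{π : Equiv.Perm (Cube n) | Far (c * ε) (push π X) D}

section

variable {n : ℕ}

lemma emd_le {P Q : Cube n → ℝ} {c : ℝ} (h : Cost P Q c) : emd P Q ≤ c := by
  obtain ⟨w, hw, hc⟩ := h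
  refine le_trans (csInf_le ⟨0, ?_⟩ ⟨w, hw, rfl⟩) hc
  rintro _ ⟨v, hv, rfl⟩
  exact sum_nonneg fun x _ => sum_nonneg fun y _ => mul_nonneg (hv.1 x y) (Δ_nonneg x y)

lemma le_emd {P Q : Cube n → ℝ} {c : ℝ} (hP : IsDist P) (hQ : IsDist Q)
    (h : ∀ w, IsCoupling P Q w → c ≤ ∑ x, ∑ y, w x y * Δ x y) : c ≤ emd P Q := by
  obtain ⟨w, hw, -⟩ := Cost.prod hP.1 hQ.1 (hP.2.trans hQ.2.symm)
  refine le_csInf ⟨_, w, hw, rfl⟩ ?_
  rintro _ ⟨v, hv, rfl⟩
  exact h v hv

lemma push_perm (π : Equiv.Perm (Cube n)) (P : Cube n → ℝ) :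
    push π P = fun z => P (π.symm z) := by
  funext z
  unfold push
  have h : ({x | π x = z} : Finset (Cube n)) = {π.symm z} := by
    ext x
    simp only [mem_filter, mem_univ, true_and, mem_singleton]
    exact (Equiv.eq_symm_apply π).symm
  rw [h, sum_singleton]

/-- all the probabilities are multiples of `1 / m` -/
def Grained (n m : ℕ) : Set (Cube n → ℝ) :=
  {Y | IsDist Y ∧ ∀ z, ∃ j : ℕ, Y z = j / m}

lemma grained_closed (n m : ℕ) : ClosedUnderMapping (Grained n m) := by
  rintro Y ⟨⟨h0, h1⟩, hj⟩ f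
  refine ⟨⟨fun z => sum_nonneg fun x _ => h0 x, ?_⟩, fun z => ?_⟩
  · unfold push
    rw [← h1]
    exact sum_fiberwise univ f Y
  · choose j hj using hj
    refine ⟨∑ x with f x = z, j x, ?_⟩
    unfold push
    rw [Nat.cast_sum, sum_div]
    exact sum_congr rfl fun x _ => hj x

/-- the uniform distribution on the relabeled set -/
lemma unif_mem {k : ℕ} (π : Equiv.Perm (Cube n)) :
    (fun z => unif (A n k) (π z)) ∈ Grained n #(A n k) := by
  refine ⟨⟨fun z => unif_nonneg _ _, ?_⟩, fun z => ?_⟩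
  · rw [Equiv.sum_comp π (unif (A n k)), sum_unif (A_nonempty n k)]
  · unfold unif
    dsimp only
    split_ifs
    · exact ⟨1, by simp⟩
    · exact ⟨0, by simp⟩

lemma far_grained {k : ℕ} (hk : 1 ≤ k) (hkn : k ≤ n) :
    Far (eta n k * k / (4 * n)) (X n k) (Grained n #(A n k)) := by
  rintro Y ⟨hY, hj⟩
  refine le_emd ⟨X_nonneg n k, X_sum hk (by omega)⟩ hY fun w hw => ?_
  refine lower hk hkn hY.1 ?_ hw
  intro y hy
  obtain ⟨j, hj⟩ := hj y
  rw [hj] at hy ⊢
  have hA0 : (0 : ℝ) < #(A n k) := by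
    have := (A_nonempty n k).card_pos
    positivity
  have hj1 : 1 ≤ j := by
    by_contra h
    have : j = 0 := by omega
    rw [this] at hy
    simp at hy
  refine div_le_div_of_nonneg_right ?_ hA0.le
  exact_mod_cast hj1

/-- the difference of the uniform distributions -/
noncomputable def g (n k : ℕ) (x : Cube n) : ℝ := unif (A n k)ᶜ x - unif (A n k) x

/-- the error terms -/
noncomputable def err (n k L : ℕ) (π : Equiv.Perm (Cube n)) : ℝ :=
  L / n * ∑ x, |conv (E n) (fun y => g n k (π y)) x| +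
    1 / 2 * ∑ x, |conv (V n L) (conv (E n) (fun y => g n k (π y))) x|

lemma E_nonempty (hn : 1 ≤ n) : (E n).Nonempty := by
  rw [← card_pos, card_E]
  exact hn

lemma V_nonempty {L : ℕ} (hL : L ≤ n) : (V n L).Nonempty := by
  rw [← card_pos, card_V hL]
  positivity

lemma good_cost {k L : ℕ} (hk : 1 ≤ k) (hn : 1 ≤ n) (hL : L ≤ n) (π : Equiv.Perm (Cube n))
    (h : err n k L π ≤ 1 / n) :
    Cost (fun z => X n k (π z)) (fun z => unif (A n k) (π z)) (eta n k * (3 / n)) := by
  have h1 := Cost.main (P := fun z => unif (A n k)ᶜ (π z)) (Q := fun z => unif (A n k) (π z))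
    (E_nonempty hn) (V_nonempty hL) norm_E (norm_V hL) (fun z => unif_nonneg _ _)
    (fun z => unif_nonneg _ _)
    (by rw [Equiv.sum_comp π (unif (A n k)ᶜ), sum_unif (Ac_nonempty hk hn)])
    (by rw [Equiv.sum_comp π (unif (A n k)), sum_unif (A_nonempty n k)])
  have h2 : Cost (fun z => unif (A n k)ᶜ (π z)) (fun z => unif (A n k) (π z)) (3 / n) := by
    refine h1.mono ?_
    have h3 : (2 : ℝ) / n + L / n * ∑ x, |conv (E n) (fun y => unif (A n k)ᶜ (π y) -
        unif (A n k) (π y)) x| + (∑ x, |conv (V n L) (conv (E n) (fun y => unif (A n k)ᶜ (π y) -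
        unif (A n k) (π y))) x|) / 2 = 2 / n + err n k L π := by
      unfold err g
      ring
    rw [h3]
    have h4 : (3 : ℝ) / n = 2 / n + 1 / n := by ring
    rw [h4]
    linarith
  have hη := eta_pos n k
  have hη1 := eta_le n k
  have h5 := (Cost.refl (P := fun z => (1 - eta n k) * unif (A n k) (π z))
    (fun z => mul_nonneg (by linarith) (unif_nonneg _ _))).add (h2.smul hη.le)
  rw [zero_add] at h5
  have e1 : (fun z => (1 - eta n k) * unif (A n k) (π z) + eta n k * unif (A n k) (π z)) =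
      fun z => unif (A n k) (π z) := by
    funext z
    ring
  rw [e1] at h5
  exact h5

lemma sum_g {k : ℕ} (hk : 1 ≤ k) (hn : 1 ≤ n) : ∑ x, g n k x = 0 := by
  unfold g
  rw [sum_sub_distrib, sum_unif (A_nonempty n k), sum_unif (Ac_nonempty hk hn), sub_self]

lemma sum_g_sq {k : ℕ} (hk : 1 ≤ k) (hkn : k ≤ n) :
    ∑ x, g n k x ^ 2 ≤ 2 ^ (k + 1) / 2 ^ n := by
  have hcA := card_A hkn
  have hA0 : (0 : ℝ) < #(A n k) := by
    have := (A_nonempty n k).card_pos
    positivity
  have hAc : #(A n k) ≤ #(A n k)ᶜ := by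
    rw [card_compl]
    simp only [Fintype.card_pi, Fintype.card_fin, prod_const, card_univ]
    have h1 : 2 * #(A n k) ≤ 2 ^ n := by
      rw [hcA, ← pow_succ']
      exact Nat.pow_le_pow_right (by norm_num) (by omega)
    omega
  have h1 : ∀ x, g n k x ^ 2 = unif (A n k)ᶜ x ^ 2 + unif (A n k) x ^ 2 := by
    intro x
    unfold g
    by_cases hx : x ∈ A n k
    · have : unif (A n k)ᶜ x = 0 := by
        unfold unif
        rw [if_neg]
        rw [mem_compl]
        exact fun h => h hx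
      rw [this]
      ring
    · have : unif (A n k) x = 0 := by
        unfold unif
        rw [if_neg hx]
      rw [this]
      ring
  simp only [h1]
  rw [sum_add_distrib, sum_unif_sq (A_nonempty n k), sum_unif_sq (Ac_nonempty hk (by omega))]
  have h2 : 1 / (#(A n k)ᶜ : ℝ) ≤ 1 / #(A n k) :=
    one_div_le_one_div_of_le hA0 (by exact_mod_cast hAc)
  have h3 : 1 / (#(A n k) : ℝ) = 2 ^ k / 2 ^ n := by
    rw [hcA]
    push_cast
    rw [div_eq_div_iff (by positivity) (by positivity), one_mul, ← pow_add]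
    congr 1
    omega
  calc 1 / (#(A n k)ᶜ : ℝ) + 1 / #(A n k) ≤ 2 ^ k / 2 ^ n + 2 ^ k / 2 ^ n := by
        rw [h3] at h2 ⊢
        linarith
    _ = 2 ^ (k + 1) / 2 ^ n := by ring

/-- most of the bijections are good -/
lemma count_bad {k L : ℕ} (hk : 1 ≤ k) (hkn : k ≤ n) (hL1 : 1 ≤ L) (hL : L ≤ n) {c : ℝ}
    (hc : 0 < c) (h₁ : 2 ^ (k + 3) * (L : ℝ) ^ 2 ≤ c ^ 2 * n)
    (h₂ : 2 ^ (k + 1) * (n : ℝ) ^ 2 ≤ c ^ 2 * 2 ^ L) :
    (#{π : Equiv.Perm (Cube n) | 1 / (n : ℝ) < err n k L π} : ℝ) ≤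
      c * ((2 ^ n).factorial : ℝ) := by
  have hn : 1 ≤ n := by omega
  have hn0 : (0 : ℝ) < n := by exact_mod_cast hn
  have hL0 : (0 : ℝ) < L := by exact_mod_cast hL1
  have hgsq := sum_g_sq hk hkn
  have hcardP : (Fintype.card (Equiv.Perm (Cube n)) : ℝ) = ((2 ^ n).factorial : ℝ) := by
    rw [Fintype.card_perm]
    simp
  have h := expected (E := E n) (V := V n L) (E_nonempty hn) (V_nonempty hL) (sum_g hk hn)
    (τ₁ := c / (2 * L) / 2 ^ n) (τ₂ := c / n / 2 ^ n) (by positivity) (by positivity)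
    (by
      rw [card_E]
      calc 1 / (n : ℝ) * ((∑ x, g n k x ^ 2) / 2 ^ n)
          ≤ 1 / (n : ℝ) * ((2 ^ (k + 1) / 2 ^ n) / 2 ^ n) :=
            mul_le_mul_of_nonneg_left (div_le_div_of_nonneg_right hgsq (by positivity))
              (by positivity)
        _ = (2 ^ (k + 1) / n) / (2 ^ n) ^ 2 := by field_simp
        _ ≤ ((c / (2 * L)) ^ 2) / (2 ^ n) ^ 2 := by
            refine div_le_div_of_nonneg_right ?_ (by positivity)
            rw [div_pow, div_le_div_iff₀ hn0 (by positivity)]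
            have : (2 : ℝ) ^ (k + 1) * (2 * (L : ℝ)) ^ 2 = 2 ^ (k + 3) * (L : ℝ) ^ 2 := by ring
            rw [this]
            exact h₁
        _ = (c / (2 * L) / 2 ^ n) ^ 2 := by rw [div_pow (c / (2 * (L : ℝ)))])
    (by
      rw [card_V hL]
      push_cast
      calc 1 / (2 : ℝ) ^ L * ((∑ x, g n k x ^ 2) / 2 ^ n)
          ≤ 1 / (2 : ℝ) ^ L * ((2 ^ (k + 1) / 2 ^ n) / 2 ^ n) :=
            mul_le_mul_of_nonneg_left (div_le_div_of_nonneg_right hgsq (by positivity))
              (by positivity)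
        _ = (2 ^ (k + 1) / 2 ^ L) / (2 ^ n) ^ 2 := by field_simp
        _ ≤ ((c / n) ^ 2) / (2 ^ n) ^ 2 := by
            refine div_le_div_of_nonneg_right ?_ (by positivity)
            rw [div_pow, div_le_div_iff₀ (by positivity) (by positivity)]
            exact h₂
        _ = (c / n / 2 ^ n) ^ 2 := by rw [div_pow (c / (n : ℝ))])
    (a := L / n) (b := 1 / 2) (by positivity) (by norm_num)
  have h3 : Fintype.card (Equiv.Perm (Cube n)) * (2 ^ n * (L / n * (c / (2 * L) / 2 ^ n) +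
      1 / 2 * (c / n / 2 ^ n))) = c * ((2 ^ n).factorial : ℝ) * (1 / n) := by
    rw [hcardP]
    field_simp
    ring
  rw [h3] at h
  have h4 : (#{π : Equiv.Perm (Cube n) | 1 / (n : ℝ) < err n k L π} : ℝ) * (1 / n) ≤
      c * ((2 ^ n).factorial : ℝ) * (1 / n) := by
    refine le_trans ?_ h
    calc (#{π : Equiv.Perm (Cube n) | 1 / (n : ℝ) < err n k L π} : ℝ) * (1 / n)
        = ∑ π : Equiv.Perm (Cube n) with 1 / (n : ℝ) < err n k L π, 1 / (n : ℝ) := by
          rw [sum_const, nsmul_eq_mul]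
      _ ≤ ∑ π : Equiv.Perm (Cube n) with 1 / (n : ℝ) < err n k L π, err n k L π :=
          sum_le_sum fun π hπ => (mem_filter.1 hπ).2.le
      _ ≤ ∑ π : Equiv.Perm (Cube n), err n k L π := by
          refine sum_le_sum_of_subset_of_nonneg (subset_univ _) fun π _ _ => ?_
          unfold err
          exact add_nonneg (mul_nonneg (by positivity) (sum_nonneg fun x _ => abs_nonneg _))
            (mul_nonneg (by norm_num) (sum_nonneg fun x _ => abs_nonneg _))
  exact le_of_mul_le_mul_right h4 (by positivity)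

end

/-- the choice of the dimension -/
lemma exists_threshold (k : ℕ) {c : ℝ} (hc : 0 < c) : ∃ L₀ : ℕ, ∀ L ≥ L₀,
    2 ^ (k + 3) ≤ c ^ 2 * (L : ℝ) ^ 2 ∧ 2 ^ (k + 1) * ((L : ℝ) + 1) ^ 8 ≤ c ^ 2 * 2 ^ L := by
  have h1 : ∀ᶠ L : ℕ in atTop, 2 ^ (k + 3) ≤ c ^ 2 * (L : ℝ) ^ 2 := by
    have h2 : Tendsto (fun L : ℕ => c ^ 2 * (L : ℝ) ^ 2) atTop atTop := by
      refine Tendsto.const_mul_atTop (by positivity) ?_
      exact (tendsto_pow_atTop (by norm_num)).comp tendsto_natCast_atTop_atTop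
    exact h2.eventually_ge_atTop _
  have h3 : ∀ᶠ L : ℕ in atTop, 2 ^ (k + 1) * ((L : ℝ) + 1) ^ 8 ≤ c ^ 2 * 2 ^ L := by
    have h4 : Tendsto (fun L : ℕ => ((L + 1 : ℕ) : ℝ) ^ 8 / 2 ^ (L + 1)) atTop (𝓝 0) :=
      (tendsto_pow_const_div_const_pow_of_one_lt 8 (one_lt_two (α := ℝ))).comp (tendsto_add_atTop_nat 1)
    have h5 : (0 : ℝ) < c ^ 2 / (2 ^ (k + 2)) := by positivity
    filter_upwards [h4.eventually_lt_const h5] with L hL
    rw [div_lt_div_iff₀ (by positivity) (by positivity)] at hL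
    push_cast at hL
    have e1 : ((L : ℝ) + 1) ^ 8 * 2 ^ (k + 2) = 2 * (2 ^ (k + 1) * ((L : ℝ) + 1) ^ 8) := by ring
    have e2 : c ^ 2 * (2 : ℝ) ^ (L + 1) = 2 * (c ^ 2 * 2 ^ L) := by ring
    rw [e1, e2] at hL
    linarith
  obtain ⟨L₀, hL₀⟩ := eventually_atTop.1 (h1.and h3)
  exact ⟨L₀, hL₀⟩

open Classical in
/-- The strong form of the negation. -/
lemma strong (c : ℝ) (hc : 0 < c) : ∃ K n₀ : ℕ, ∀ n : ℕ, n₀ ≤ n →
    ∃ (D : Set (Cube n → ℝ)) (X : Cube n → ℝ) (ε : ℝ), D.Nonempty ∧ IsProperty D ∧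
      ClosedUnderMapping D ∧ IsDist X ∧ 1 / (n : ℝ) ^ K ≤ ε ∧ Far ε X D ∧
      (1 - c) * ((2 ^ n).factorial : ℝ) ≤
        #{π : Equiv.Perm (Cube n) | ¬ Far (c * ε) (push π X) D} := by
  set k : ℕ := ⌈12 / c⌉₊ + 1 with hk
  have hk1 : 1 ≤ k := by omega
  have hkc : 12 < c * k := by
    have h1 := Nat.le_ceil (12 / c)
    have h2 : 12 / c < k := by
      rw [hk]
      push_cast
      linarith
    rw [div_lt_iff₀ hc] at h2
    linarith
  obtain ⟨L₀, hL₀⟩ := exists_threshold k hc
  refine ⟨2 * k + 2, max ((L₀ + 1) ^ 4) (max k 20), fun n hn => ?_⟩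
  have hn1 : (L₀ + 1) ^ 4 ≤ n := le_trans (le_max_left _ _) hn
  have hkn : k ≤ n := le_trans (le_trans (le_max_left _ _) (le_max_right _ _)) hn
  have hn20 : 20 ≤ n := le_trans (le_trans (le_max_right _ _) (le_max_right _ _)) hn
  have hn0 : (0 : ℝ) < n := by exact_mod_cast (by omega : 0 < n)
  set L := Nat.sqrt (Nat.sqrt n) with hL
  have hLge : L₀ + 1 ≤ L := by
    rw [hL, Nat.le_sqrt', Nat.le_sqrt']
    calc ((L₀ + 1) ^ 2) ^ 2 = (L₀ + 1) ^ 4 := by ring
      _ ≤ n := hn1
  have hL4 : L ^ 4 ≤ n := by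
    have h1 : L ^ 2 ≤ Nat.sqrt n := Nat.sqrt_le' _
    have h2 : (Nat.sqrt n) ^ 2 ≤ n := Nat.sqrt_le' _
    calc L ^ 4 = (L ^ 2) ^ 2 := by ring
      _ ≤ (Nat.sqrt n) ^ 2 := Nat.pow_le_pow_left h1 2
      _ ≤ n := h2
  have hLlt : n < (L + 1) ^ 4 := by
    have h1 : Nat.sqrt n < (L + 1) ^ 2 := Nat.lt_succ_sqrt' _
    have h2 : n < (Nat.sqrt n + 1) ^ 2 := Nat.lt_succ_sqrt' _
    calc n < (Nat.sqrt n + 1) ^ 2 := h2
      _ ≤ ((L + 1) ^ 2) ^ 2 := Nat.pow_le_pow_left (by omega) 2
      _ = (L + 1) ^ 4 := by ring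
  have hL1 : 1 ≤ L := by omega
  have hLn : L ≤ n := le_trans (by
    calc L = L ^ 1 := (pow_one L).symm
      _ ≤ L ^ 4 := Nat.pow_le_pow_right hL1 (by norm_num)) hL4
  obtain ⟨c1, c2⟩ := hL₀ L (by omega)
  have hL4' : (L : ℝ) ^ 4 ≤ n := by exact_mod_cast hL4
  have hLlt' : (n : ℝ) ≤ ((L : ℝ) + 1) ^ 4 := by exact_mod_cast hLlt.le
  have h₁ : 2 ^ (k + 3) * (L : ℝ) ^ 2 ≤ c ^ 2 * n := by
    calc 2 ^ (k + 3) * (L : ℝ) ^ 2 ≤ (c ^ 2 * (L : ℝ) ^ 2) * (L : ℝ) ^ 2 :=
          mul_le_mul_of_nonneg_right c1 (by positivity)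
      _ = c ^ 2 * (L : ℝ) ^ 4 := by ring
      _ ≤ c ^ 2 * n := mul_le_mul_of_nonneg_left hL4' (by positivity)
  have h₂ : 2 ^ (k + 1) * (n : ℝ) ^ 2 ≤ c ^ 2 * 2 ^ L := by
    calc 2 ^ (k + 1) * (n : ℝ) ^ 2 ≤ 2 ^ (k + 1) * (((L : ℝ) + 1) ^ 4) ^ 2 :=
          mul_le_mul_of_nonneg_left (pow_le_pow_left₀ hn0.le hLlt' 2) (by positivity)
      _ = 2 ^ (k + 1) * ((L : ℝ) + 1) ^ 8 := by ring
      _ ≤ c ^ 2 * 2 ^ L := c2
  have hbad := count_bad hk1 hkn hL1 hLn hc h₁ h₂
  refine ⟨Grained n #(A n k), X n k, eta n k * k / (4 * n), ⟨_, unif_mem (Equiv.refl _)⟩,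
    fun Y hY => hY.1, grained_closed _ _, ⟨X_nonneg n k, X_sum hk1 (by omega)⟩, ?_,
    far_grained hk1 hkn, ?_⟩
  · -- the size of `ε`
    have hk0 : (0 : ℝ) < k := by exact_mod_cast hk1
    have e1 : eta n k * k / (4 * n) = k / (((k : ℝ) + 4) * ((n : ℝ) + 1) ^ k * (4 * n)) := by
      unfold eta
      field_simp
    rw [e1, div_le_div_iff₀ (by positivity) (by positivity), one_mul]
    have hn20' : (20 : ℝ) ≤ n := by exact_mod_cast hn20
    have e2 : ((n : ℝ) + 1) ^ k ≤ ((n : ℝ) ^ 2) ^ k := by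
      refine pow_le_pow_left₀ (by positivity) ?_ k
      nlinarith
    have e3 : ((k : ℝ) + 4) ≤ 5 * k := by
      have : (1 : ℝ) ≤ k := by exact_mod_cast hk1
      linarith
    calc ((k : ℝ) + 4) * ((n : ℝ) + 1) ^ k * (4 * n) ≤ (5 * k) * ((n : ℝ) ^ 2) ^ k * (4 * n) := by
          refine mul_le_mul_of_nonneg_right (mul_le_mul e3 e2 (by positivity) (by positivity))
            (by positivity)
      _ = k * ((n : ℝ) ^ 2) ^ k * (20 * n) := by ring
      _ ≤ k * ((n : ℝ) ^ 2) ^ k * (n * n) := by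
          refine mul_le_mul_of_nonneg_left (mul_le_mul_of_nonneg_right hn20' hn0.le) (by positivity)
      _ = k * (n : ℝ) ^ (2 * k + 2) := by ring
  · -- the number of good bijections
    have hgood : ∀ π : Equiv.Perm (Cube n), err n k L π.symm ≤ 1 / n →
        ¬ Far (c * (eta n k * k / (4 * n))) (push π (X n k)) (Grained n #(A n k)) := by
      intro π hπ hfar
      have h3 := hfar _ (unif_mem (k := k) π.symm)
      rw [push_perm] at h3
      have h4 := emd_le (good_cost hk1 (by omega) hLn π.symm hπ)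
      have h5 : eta n k * (3 / n) < c * (eta n k * k / (4 * n)) := by
        have hη := eta_pos n k
        have e1 : eta n k * (3 / n) = (eta n k / (4 * n)) * 12 := by
          field_simp
          norm_num
        have e2 : c * (eta n k * k / (4 * n)) = (eta n k / (4 * n)) * (c * k) := by ring
        rw [e1, e2]
        exact mul_lt_mul_of_pos_left hkc (by positivity)
      exact absurd (h3.trans h4) (not_le.2 h5)
    have hcardP : (Fintype.card (Equiv.Perm (Cube n)) : ℝ) = ((2 ^ n).factorial : ℝ) := by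
      rw [Fintype.card_perm]
      simp
    have hsub : (univ : Finset (Equiv.Perm (Cube n))) ⊆
        ({π | ¬ Far (c * (eta n k * k / (4 * n))) (push π (X n k)) (Grained n #(A n k))} :
          Finset (Equiv.Perm (Cube n))) ∪
        ({π | 1 / (n : ℝ) < err n k L π} : Finset (Equiv.Perm (Cube n))).map
          (Equiv.inv (Equiv.Perm (Cube n))).toEmbedding := by
      intro π _
      by_cases h : err n k L π.symm ≤ 1 / n
      · exact mem_union_left _ (by rw [mem_filter]; exact ⟨mem_univ _, hgood π h⟩)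
      · push Not at h
        refine mem_union_right _ ?_
        rw [Finset.mem_map]
        exact ⟨π.symm, by rw [mem_filter]; exact ⟨mem_univ _, h⟩, by
          simp only [Equiv.coe_toEmbedding, Equiv.inv_apply]
          exact inv_inv π⟩
    have hcount := (card_le_card hsub).trans (card_union_le _ _)
    rw [card_map, card_univ] at hcount
    have hcount' : (Fintype.card (Equiv.Perm (Cube n)) : ℝ) ≤
        (#{π : Equiv.Perm (Cube n) | ¬ Far (c * (eta n k * k / (4 * n))) (push π (X n k))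
          (Grained n #(A n k))} : ℝ) + #{π : Equiv.Perm (Cube n) | 1 / (n : ℝ) < err n k L π} := by
      exact_mod_cast hcount
    rw [hcardP] at hcount'
    linarith

open Classical in
/-- The answer to Q1 is negative. For every `c > 0` there are `K` and `n₀` such that for all
`n ≥ n₀` there are a property `D` which is closed under mapping, a distribution `X` and
`ε ≥ n ^ (-K)` such that `X` is `ε`-far from `D`, but `π (X)` is not `c ε`-far from `D` for at least
`(1 - c) (2 ^ n)!` of the `(2 ^ n)!` bijections `π`. In particular the conjecture is false. -/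
theorem result :
    (∀ c : ℝ, 0 < c → ∃ K n₀ : ℕ, ∀ n : ℕ, n₀ ≤ n →
      ∃ (D : Set (Cube n → ℝ)) (X : Cube n → ℝ) (ε : ℝ), D.Nonempty ∧ IsProperty D ∧
        ClosedUnderMapping D ∧ IsDist X ∧ 1 / (n : ℝ) ^ K ≤ ε ∧ Far ε X D ∧
        (1 - c) * ((2 ^ n).factorial : ℝ) ≤
          #{π : Equiv.Perm (Cube n) | ¬ Far (c * ε) (push π X) D}) ∧
    ¬ Conjecture := by
  refine ⟨strong, ?_⟩
  rintro ⟨c, hc, δ, hδ, h⟩
  set c' := min c (1 / 4) with hc'
  have hc'0 : 0 < c' := lt_min hc (by norm_num)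
  obtain ⟨K, n₀, hn₀⟩ := strong c' hc'0
  obtain ⟨n₁, hn₁⟩ := eventually_atTop.1 (hδ.eventually_lt_const (show (0 : ℝ) < 1 / 4 by norm_num))
  set n := max n₀ (max n₁ 1) with hn
  have hn1 : 1 ≤ n := le_trans (le_max_right _ _) (le_max_right _ _)
  obtain ⟨D, X, ε, -, hD, hcl, hX, hε, hfar, hcount⟩ := hn₀ n (le_max_left _ _)
  have hε0 : 0 < ε := by
    have hn0 : (0 : ℝ) < n := by exact_mod_cast hn1
    exact lt_of_lt_of_le (by positivity) hε
  have h1 := h n hn1 D hD hcl ε hε0 X hX hfar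
  have h2 := hn₁ n (le_trans (le_max_left _ _) (le_max_right _ _))
  have h3 : (#{π : Equiv.Perm (Cube n) | Far (c * ε) (push π X) D} : ℝ) +
      #{π : Equiv.Perm (Cube n) | ¬ Far (c' * ε) (push π X) D} ≤ ((2 ^ n).factorial : ℝ) := by
    have hcardP : Fintype.card (Equiv.Perm (Cube n)) = (2 ^ n).factorial := by
      rw [Fintype.card_perm]
      simp
    have h4 : Disjoint ({π : Equiv.Perm (Cube n) | Far (c * ε) (push π X) D} : Finset _)
        ({π : Equiv.Perm (Cube n) | ¬ Far (c' * ε) (push π X) D} : Finset _) := by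
      rw [Finset.disjoint_left]
      intro π hπ hπ'
      rw [mem_filter] at hπ hπ'
      refine hπ'.2 fun Y hY => le_trans ?_ (hπ.2 Y hY)
      exact mul_le_mul_of_nonneg_right (min_le_left _ _) hε0.le
    have h5 := card_le_univ (({π : Equiv.Perm (Cube n) | Far (c * ε) (push π X) D} : Finset _) ∪
      ({π : Equiv.Perm (Cube n) | ¬ Far (c' * ε) (push π X) D} : Finset _))
    rw [card_union_of_disjoint h4, hcardP] at h5
    exact_mod_cast h5
  have h6 : c' ≤ 1 / 4 := min_le_right _ _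
  have hF : (0 : ℝ) < ((2 ^ n).factorial : ℝ) := by exact_mod_cast Nat.factorial_pos _
  nlinarith

end Pool.Agent.Results.MP_3e89d2_lc.RandomRelabeling
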